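import Pool.Agent.H27.AP.Targets

/-!
# Board `apr_modules` (MP_98b15b_nt), row FA: all ranges together
-/

set_option autoImplicit false

open Finset Real

namespace Pool.Agent.H89.APR

open Pool.Agent.H27.AP

theorem P_mono' {h h' : ℕ} (hh : h ≤ h') (x : ℕ) : P h x ≤ P h' x :=
  Finset.card_le_card (Finset.filter_subset_filter _ (Finset.Ioc_subset_Ioc_right (by omega)))

theorem pf_FA (hRA : T_RA) (hRB : T_RB) (hRC : T_RC) : T_FA := by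
  intro A δ hδ hδ3
  obtain ⟨C1, hC1, h1⟩ := hRA A
  obtain ⟨C2, hC2, h2⟩ := hRB A (A + 30)
  obtain ⟨C3, hC3, h3⟩ := hRC A δ hδ hδ3
  refine ⟨C1 + C2 + C3, by linarith, ?_⟩
  intro N hN
  have e1 := h1 N hN
  have e2 := h2 N hN
  have e3 := h3 N hN
  set S1 : Set ℕ := {x : ℕ | x < N ∧ x.Prime ∧ ∃ y : ℕ, y.Prime ∧ A ≤ Nat.primeCounting y ∧
    (y : ℝ) ^ 2 ≤ Real.log N ∧ Nat.primeCounting y + 1 ≤ P (y - 1) x} with hS1
  set S2 : Set ℕ := {x : ℕ | x < N ∧ ∃ y : ℕ, Real.log N < (y : ℝ) ^ 2 ∧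
    (y : ℝ) ≤ Real.log N ^ (A + 30) ∧ Nat.primeCounting y + 1 ≤ P y x} with hS2
  set S3 : Set ℕ := {x : ℕ | x < N ∧ ∃ y : ℕ, Real.log N ^ (A + 30) < (y : ℝ) ∧
    (y : ℝ) ≤ (N : ℝ) ^ δ ∧ Nat.primeCounting y + 1 ≤ P y x} with hS3
  have f1 : S1.Finite := (Set.finite_Iio N).subset fun x hx => hx.1
  have f2 : S2.Finite := (Set.finite_Iio N).subset fun x hx => hx.1
  have f3 : S3.Finite := (Set.finite_Iio N).subset fun x hx => hx.1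
  have hsub : {x : ℕ | x < N ∧ x.Prime ∧ ∃ y : ℕ, y.Prime ∧ A ≤ Nat.primeCounting y ∧
      (y : ℝ) ≤ (N : ℝ) ^ δ ∧ Nat.primeCounting y + 1 ≤ P (y - 1) x} ⊆ S1 ∪ S2 ∪ S3 := by
    rintro x ⟨hx, hxp, y, hyp, hyA, hyN, hyP⟩
    have hyP' : Nat.primeCounting y + 1 ≤ P y x := hyP.trans (P_mono' (by omega) x)
    by_cases hy1 : (y : ℝ) ^ 2 ≤ Real.log N
    · exact Or.inl (Or.inl ⟨hx, hxp, y, hyp, hyA, hy1, hyP⟩)
    · by_cases hy2 : (y : ℝ) ≤ Real.log N ^ (A + 30)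
      · exact Or.inl (Or.inr ⟨hx, y, not_le.1 hy1, hy2, hyP'⟩)
      · exact Or.inr ⟨hx, y, not_le.1 hy2, hyN, hyP'⟩
  have h4 := (Set.ncard_le_ncard hsub ((f1.union f2).union f3)).trans
    ((Set.ncard_union_le (S1 ∪ S2) S3).trans
      (Nat.add_le_add_right (Set.ncard_union_le S1 S2) _))
  have h5 : (({x : ℕ | x < N ∧ x.Prime ∧ ∃ y : ℕ, y.Prime ∧ A ≤ Nat.primeCounting y ∧
      (y : ℝ) ≤ (N : ℝ) ^ δ ∧ Nat.primeCounting y + 1 ≤ P (y - 1) x}.ncard : ℕ) : ℝ) ≤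
      (S1.ncard : ℝ) + S2.ncard + S3.ncard := by exact_mod_cast h4
  linarith

end Pool.Agent.H89.APR

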