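import Pool.Agent.H27.AP.Targets

/-!
# Board `apr_modules` (MP_98b15b_nt), row RA: the range `y ≤ √(log N)`
-/

set_option autoImplicit false

open Finset Real

namespace Pool.Agent.H89.APR

open Pool.Agent.H27.AP

theorem P_mono {h h' : ℕ} (hh : h ≤ h') (x : ℕ) : P h x ≤ P h' x :=
  Finset.card_le_card (Finset.filter_subset_filter _ (Finset.Ioc_subset_Ioc_right (by omega)))

/-- comparison of the powers of `log N` -/
theorem pw (N L : ℝ) (hN : 0 ≤ N) (hL : Real.log 2 ≤ L) (k n : ℕ) (hkn : k ≤ n) :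
    N / L ^ n ≤ (1 / (Real.log 2) ^ (n - k)) * (N / L ^ k) := by
  have h0 : 0 < Real.log 2 := Real.log_pos (by norm_num)
  have hL0 : 0 < L := h0.trans_le hL
  rw [div_le_iff₀ (pow_pos hL0 n)]
  have h1 : L ^ k * (Real.log 2) ^ (n - k) ≤ L ^ n := by
    calc L ^ k * (Real.log 2) ^ (n - k) ≤ L ^ k * L ^ (n - k) :=
          mul_le_mul_of_nonneg_left (pow_le_pow_left₀ h0.le hL _) (pow_pos hL0 k).le
      _ = L ^ n := by rw [← pow_add]; congr 1; omega
  calc N = (1 / (Real.log 2) ^ (n - k)) * (N / L ^ k) * (L ^ k * (Real.log 2) ^ (n - k)) := by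
        field_simp
    _ ≤ (1 / (Real.log 2) ^ (n - k)) * (N / L ^ k) * L ^ n :=
        mul_le_mul_of_nonneg_left h1 (by positivity)

/-- `(1 + log y)³ ≤ 27 y` -/
theorem log_cube (y : ℕ) (hy : 1 ≤ y) : (1 + Real.log y) ^ 3 ≤ 27 * y := by
  have hy0 : (0 : ℝ) < y := by exact_mod_cast hy
  have ht : 0 ≤ Real.log y := Real.log_natCast_nonneg y
  have h1 : 1 + Real.log y ≤ 3 * Real.exp (Real.log y / 3) := by
    have := Real.add_one_le_exp (Real.log y / 3)
    linarith
  calc (1 + Real.log y) ^ 3 ≤ (3 * Real.exp (Real.log y / 3)) ^ 3 :=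
        pow_le_pow_left₀ (by linarith) h1 3
    _ = 27 * Real.exp (Real.log y) := by
        rw [mul_pow, ← Real.exp_nat_mul, show ((3 : ℕ) : ℝ) * (Real.log y / 3) = Real.log y by
          push_cast; ring]
        norm_num
    _ = 27 * y := by rw [Real.exp_log hy0]

theorem pf_RA (hTUP : T_TUP) : T_RA := by
  intro A
  choose C hC using hTUP
  obtain ⟨Y, hY⟩ := Filter.eventually_atTop.1
    (Nat.tendsto_primeCounting.eventually_ge_atTop (3 * A + 11))
  have h0 : 0 < Real.log 2 := Real.log_pos (by norm_num)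
  set K1 : ℝ := ∑ y ∈ range Y, C (Nat.primeCounting y + 1) *
    ((y : ℝ) ^ (Nat.primeCounting y + 1) * (1 + Real.log y) ^ (Nat.primeCounting y + 1 + 1)) *
    (1 / (Real.log 2) ^ (Nat.primeCounting y + 1 + 1 - (A + 2))) with hK1
  set K2 : ℝ := C (3 * A + 11) * 27 ^ (A + 4) * (1 / (Real.log 2) ^ 2) with hK2
  have hlog : ∀ y : ℕ, 0 ≤ Real.log y := fun y => Real.log_natCast_nonneg y
  have hK1n : 0 ≤ K1 := by
    refine Finset.sum_nonneg fun y _ => ?_
    have h1 := (hC (Nat.primeCounting y + 1)).1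
    have h2 := hlog y
    positivity
  have hK2p : 0 < K2 := by
    have h1 := (hC (3 * A + 11)).1
    positivity
  refine ⟨K1 + K2, by linarith, ?_⟩
  intro N hN
  set L : ℝ := Real.log N with hL
  have hN' : (2 : ℝ) ≤ N := by exact_mod_cast hN
  have hL2 : Real.log 2 ≤ L := Real.log_le_log (by norm_num) hN'
  have hL0 : 0 < L := h0.trans_le hL2
  have hN0 : (0 : ℝ) ≤ N := by linarith
  classical
  let S : ℕ → ℕ → Finset ℕ := fun h r => (range N).filter fun x => x.Prime ∧ r ≤ P h x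
  set s : ℕ := ⌊Real.sqrt L⌋₊ with hs
  let F1 : Finset ℕ := ((range Y).filter fun y => 1 ≤ y ∧ A ≤ Nat.primeCounting y).biUnion
    fun y => S y (Nat.primeCounting y + 1)
  let F2 : Finset ℕ := (Icc 1 s).biUnion fun y => S y (3 * A + 11)
  have hsub : {x : ℕ | x < N ∧ x.Prime ∧ ∃ y : ℕ, y.Prime ∧ A ≤ Nat.primeCounting y ∧
      (y : ℝ) ^ 2 ≤ L ∧ Nat.primeCounting y + 1 ≤ P (y - 1) x} ⊆ ↑(F1 ∪ F2) := by
    rintro x ⟨hx, hxp, y, hyp, hyA, hyL, hyP⟩
    have hyP' : Nat.primeCounting y + 1 ≤ P y x := hyP.trans (P_mono (by omega) x)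
    have hy1 : 1 ≤ y := hyp.one_lt.le
    rw [Finset.mem_coe, Finset.mem_union]
    by_cases hyY : y < Y
    · left
      refine Finset.mem_biUnion.2 ⟨y, ?_, ?_⟩
      · exact Finset.mem_filter.2 ⟨Finset.mem_range.2 hyY, hy1, hyA⟩
      · exact Finset.mem_filter.2 ⟨Finset.mem_range.2 hx, hxp, hyP'⟩
    · right
      have h1 := hY y (by omega)
      refine Finset.mem_biUnion.2 ⟨y, ?_, ?_⟩
      · rw [Finset.mem_Icc]
        exact ⟨hy1, Nat.le_floor (Real.le_sqrt_of_sq_le hyL)⟩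
      · exact Finset.mem_filter.2 ⟨Finset.mem_range.2 hx, hxp, by omega⟩
  have hcard : (({x : ℕ | x < N ∧ x.Prime ∧ ∃ y : ℕ, y.Prime ∧ A ≤ Nat.primeCounting y ∧
      (y : ℝ) ^ 2 ≤ L ∧ Nat.primeCounting y + 1 ≤ P (y - 1) x}.ncard : ℕ) : ℝ) ≤
      (F1.card : ℝ) + F2.card := by
    have h1 := Set.ncard_le_ncard hsub (Finset.finite_toSet _)
    rw [Set.ncard_coe_finset] at h1
    have h2 := h1.trans (Finset.card_union_le F1 F2)
    exact_mod_cast h2
  have hF1 : (F1.card : ℝ) ≤ K1 * (N / L ^ (A + 2)) := by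
    have h1 : F1.card ≤ ∑ y ∈ (range Y).filter (fun y => 1 ≤ y ∧ A ≤ Nat.primeCounting y),
        (S y (Nat.primeCounting y + 1)).card := Finset.card_biUnion_le
    have h2 : (F1.card : ℝ) ≤ ∑ y ∈ (range Y).filter
        (fun y => 1 ≤ y ∧ A ≤ Nat.primeCounting y),
        ((S y (Nat.primeCounting y + 1)).card : ℝ) := by exact_mod_cast h1
    refine h2.trans ?_
    have hterm : ∀ y : ℕ, 0 ≤ C (Nat.primeCounting y + 1) *
        ((y : ℝ) ^ (Nat.primeCounting y + 1) * (1 + Real.log y) ^ (Nat.primeCounting y + 1 + 1)) *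
        (1 / (Real.log 2) ^ (Nat.primeCounting y + 1 + 1 - (A + 2))) * (N / L ^ (A + 2)) := by
      intro y
      have h1 := (hC (Nat.primeCounting y + 1)).1
      have h2 := hlog y
      positivity
    rw [hK1, Finset.sum_mul]
    refine le_trans ?_ (Finset.sum_le_sum_of_subset_of_nonneg
      (Finset.filter_subset (fun y => 1 ≤ y ∧ A ≤ Nat.primeCounting y) (range Y))
      fun y _ _ => hterm y)
    refine Finset.sum_le_sum fun y hy => ?_
    obtain ⟨-, hy1, hyA⟩ := Finset.mem_filter.1 hy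
    have h3 := (hC (Nat.primeCounting y + 1)).2 N y hN hy1
    refine h3.trans ?_
    have h4 := pw N L hN0 hL2 (A + 2) (Nat.primeCounting y + 1 + 1) (by omega)
    rw [mul_assoc (C (Nat.primeCounting y + 1) * _)]
    refine mul_le_mul_of_nonneg_left h4 ?_
    have h5 := (hC (Nat.primeCounting y + 1)).1
    have h6 := hlog y
    positivity
  have hF2 : (F2.card : ℝ) ≤ K2 * (N / L ^ (A + 2)) := by
    have h1 : F2.card ≤ ∑ y ∈ Icc 1 s, (S y (3 * A + 11)).card := Finset.card_biUnion_le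
    have h2 : (F2.card : ℝ) ≤ ∑ y ∈ Icc 1 s, ((S y (3 * A + 11)).card : ℝ) := by
      exact_mod_cast h1
    refine h2.trans ?_
    have hCp := (hC (3 * A + 11)).1
    have hs0 : (0 : ℝ) ≤ s := Nat.cast_nonneg s
    have hs2 : (s : ℝ) ^ 2 ≤ L := by
      have h3 : (s : ℝ) ≤ Real.sqrt L := Nat.floor_le (Real.sqrt_nonneg L)
      calc (s : ℝ) ^ 2 ≤ (Real.sqrt L) ^ 2 := pow_le_pow_left₀ hs0 h3 2
        _ = L := Real.sq_sqrt hL0.le
    have h3 : ∀ y ∈ Icc 1 s, ((S y (3 * A + 11)).card : ℝ) ≤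
        C (3 * A + 11) * (27 ^ (A + 4) * (s : ℝ) ^ (4 * A + 15)) * (N / L ^ (3 * A + 12)) := by
      intro y hy
      obtain ⟨hy1, hys⟩ := Finset.mem_Icc.1 hy
      have hy0 : (0 : ℝ) ≤ y := Nat.cast_nonneg y
      have hys' : (y : ℝ) ≤ s := by exact_mod_cast hys
      refine ((hC (3 * A + 11)).2 N y hN hy1).trans ?_
      have h4 : (y : ℝ) ^ (3 * A + 11) * (1 + Real.log y) ^ (3 * A + 11 + 1) ≤
          27 ^ (A + 4) * (s : ℝ) ^ (4 * A + 15) := by
        calc (y : ℝ) ^ (3 * A + 11) * (1 + Real.log y) ^ (3 * A + 11 + 1)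
            = (y : ℝ) ^ (3 * A + 11) * ((1 + Real.log y) ^ 3) ^ (A + 4) := by
              rw [← pow_mul, show 3 * (A + 4) = 3 * A + 11 + 1 by ring]
          _ ≤ (y : ℝ) ^ (3 * A + 11) * (27 * y) ^ (A + 4) := by
              refine mul_le_mul_of_nonneg_left ?_ (by positivity)
              refine pow_le_pow_left₀ ?_ (log_cube y hy1) _
              have := hlog y
              positivity
          _ = 27 ^ (A + 4) * (y : ℝ) ^ (4 * A + 15) := by
              rw [mul_pow]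
              have : (y : ℝ) ^ (4 * A + 15) = (y : ℝ) ^ (3 * A + 11) * (y : ℝ) ^ (A + 4) := by
                rw [← pow_add]
                congr 1
                ring
              rw [this]
              ring
          _ ≤ 27 ^ (A + 4) * (s : ℝ) ^ (4 * A + 15) := by
              refine mul_le_mul_of_nonneg_left (pow_le_pow_left₀ hy0 hys' _) (by positivity)
      have h5 : 0 ≤ (N : ℝ) / L ^ (3 * A + 11 + 1) := by positivity
      have h6 : 3 * A + 11 + 1 = 3 * A + 12 := by ring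
      rw [h6] at h5 h4 ⊢
      exact mul_le_mul_of_nonneg_right (mul_le_mul_of_nonneg_left h4 hCp.le) h5
    refine (Finset.sum_le_card_nsmul _ _ _ h3).trans ?_
    rw [nsmul_eq_mul, Nat.card_Icc]
    have h7 : ((s + 1 - 1 : ℕ) : ℝ) = s := by simp
    rw [h7]
    have h8 : (s : ℝ) ^ (4 * A + 16) ≤ L ^ (2 * A + 8) := by
      calc (s : ℝ) ^ (4 * A + 16) = ((s : ℝ) ^ 2) ^ (2 * A + 8) := by
            rw [← pow_mul]
            congr 1
            ring
        _ ≤ L ^ (2 * A + 8) := pow_le_pow_left₀ (by positivity) hs2 _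
    have h9 := pw N L hN0 hL2 (A + 2) (A + 4) (by omega)
    have h10 : A + 4 - (A + 2) = 2 := by omega
    rw [h10] at h9
    calc (s : ℝ) * (C (3 * A + 11) * (27 ^ (A + 4) * (s : ℝ) ^ (4 * A + 15)) *
          (N / L ^ (3 * A + 12)))
        = C (3 * A + 11) * 27 ^ (A + 4) * ((s : ℝ) ^ (4 * A + 16) * (N / L ^ (3 * A + 12))) := by
          ring
      _ ≤ C (3 * A + 11) * 27 ^ (A + 4) * (L ^ (2 * A + 8) * (N / L ^ (3 * A + 12))) := by
          refine mul_le_mul_of_nonneg_left (mul_le_mul_of_nonneg_right h8 ?_) ?_ <;> positivity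
      _ = C (3 * A + 11) * 27 ^ (A + 4) * (N / L ^ (A + 4)) := by
          congr 1
          have h11 : L ^ (3 * A + 12) = L ^ (2 * A + 8) * L ^ (A + 4) := by
            rw [← pow_add]
            congr 1
            ring
          rw [h11]
          field_simp
      _ ≤ C (3 * A + 11) * 27 ^ (A + 4) * (1 / (Real.log 2) ^ 2 * (N / L ^ (A + 2))) :=
          mul_le_mul_of_nonneg_left h9 (by positivity)
      _ = K2 * (N / L ^ (A + 2)) := by rw [hK2]; ring
  linarith

end Pool.Agent.H89.APR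

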